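import Mathlib
import Pool.Agent.Lib.MP_8a5253_lc.Count

namespace Pool.Agent.Results.MP_8a5253_lc.CentralBinomialBound

open MvPolynomial Pool.Agent.Lib.MP_8a5253_lc

/-- Every Waring decomposition of the `n × n` permanent has at least `(1 - o(1)) * C(2n, n)` terms,
with an explicit error term. -/
theorem result :
    (∀ (n r s : ℕ) (a : Fin r → Fin n × Fin n → ℂ), s ≤ n →
      (Matrix.of fun i j => (X (i, j) : MvPolynomial (Fin n × Fin n) ℂ)).permanent =
        ∑ k, (∑ e, C (a k e) * X e) ^ n →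
      (2 * n).choose n ≤
        r + 2 * s * n.choose (n / 2) ^ 2 + 3 ^ s * (2 * (n - s)).choose (n - s)) ∧
    (∀ ε : ℝ, 0 < ε → ∃ N : ℕ, ∀ n ≥ N, ∀ (r : ℕ) (a : Fin r → Fin n × Fin n → ℂ),
      (Matrix.of fun i j => (X (i, j) : MvPolynomial (Fin n × Fin n) ℂ)).permanent =
        ∑ k, (∑ e, C (a k e) * X e) ^ n →
      (1 - ε) * ((2 * n).choose n : ℝ) ≤ r) := by
  have key : ∀ (n r s : ℕ) (a : Fin r → Fin n × Fin n → ℂ), s ≤ n →
      (Matrix.of fun i j => (X (i, j) : MvPolynomial (Fin n × Fin n) ℂ)).permanent =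
        ∑ k, (∑ e, C (a k e) * X e) ^ n →
      n.centralBinom ≤ r + 2 * s * n.choose (n / 2) ^ 2 + 3 ^ s * (n - s).centralBinom := by
    intro n r s a hs h
    have := explicit a (by simpa only [Fintype.card_fin] using h) s (by simpa using hs)
    simpa only [Fintype.card_fin] using this
  refine ⟨key, fun ε hε => ?_⟩
  obtain ⟨s, N, hN⟩ := asymp ε hε
  refine ⟨N, fun n hn r a h => ?_⟩
  obtain ⟨hs, h1⟩ := hN n hn
  have h2 : ((n.centralBinom : ℕ) : ℝ) ≤
      ((r + (2 * s * n.choose (n / 2) ^ 2 + 3 ^ s * (n - s).centralBinom) : ℕ) : ℝ) := by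
    exact_mod_cast (add_assoc r _ _ ▸ key n r s a hs h)
  rw [Nat.cast_add] at h2
  change (1 - ε) * ((n.centralBinom : ℕ) : ℝ) ≤ r
  linarith

end Pool.Agent.Results.MP_8a5253_lc.CentralBinomialBound
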