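import Mathlib
import Pool.Agent.Lib.CH48.All

namespace Pool.Agent.Results.MP_8a5253_lc.ProductRank

open MvPolynomial

/-- A lower bound for the number of products of `n` arbitrary linear forms needed to write the
`n × n` permanent. -/
theorem result :
    ∀ (n r : ℕ) (a : Fin r → Fin n → Fin n × Fin n → ℂ), 0 < n →
      (Matrix.of fun i j => (X (i, j) : MvPolynomial (Fin n × Fin n) ℂ)).permanent =
        ∑ k, ∏ s, ∑ e, C (a k s e) * X e →
      ∑ d ∈ (Finset.range (n + 1)).filter (fun d => d % 2 = (n / 2 + 1) % 2), n.choose d ^ 2 ≤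
        r * n.choose (n / 2 + 1) :=
  fun n r a hn h => (Pool.Agent.Lib.CH48.st_MAIN n r a hn h).1

/-- The same bound in closed form: `r ≥ 2 ^ (n - 1) / √2 - 1 / 2`. -/
theorem closed_form :
    ∀ (n r : ℕ) (a : Fin r → Fin n → Fin n × Fin n → ℂ), 0 < n →
      (Matrix.of fun i j => (X (i, j) : MvPolynomial (Fin n × Fin n) ℂ)).permanent =
        ∑ k, ∏ s, ∑ e, C (a k s e) * X e →
      4 ^ n ≤ 2 * (2 * r + 1) ^ 2 :=
  fun n r a hn h => (Pool.Agent.Lib.CH48.st_MAIN n r a hn h).2

end Pool.Agent.Results.MP_8a5253_lc.ProductRank
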