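import Mathlib
import Pool.Agent.Lib.LX33.All

namespace Pool.Agent.Results.MP_8a5253_lc.ProductRankAsymptotic

open MvPolynomial

/-- Writing the `n × n` permanent as a sum of products of `n` arbitrary linear forms needs
`(1 - o(1)) * 2 ^ (n - 1)` products. -/
theorem result :
    ∀ ε : ℝ, 0 < ε → ∃ N : ℕ, ∀ n ≥ N, ∀ (r : ℕ) (a : Fin r → Fin n → Fin n × Fin n → ℂ),
      (Matrix.of fun i j => (X (i, j) : MvPolynomial (Fin n × Fin n) ℂ)).permanent =
        ∑ k, ∏ s, ∑ e, C (a k s e) * X e →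
      (1 - ε) * 2 ^ (n - 1) ≤ (r : ℝ) :=
  Pool.Agent.Lib.LX33.main_all

end Pool.Agent.Results.MP_8a5253_lc.ProductRankAsymptotic
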